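import Pool.Agent.MP_d171e3_nt.Mg.H48_Final

/-! Bounded degree independence of the logarithms of the integers of a short interval. -/

namespace Pool.Agent.Results.MP_d171e3_nt.Clusters

/-- For all `k, m` there is `C` such that for `d ≥ 2`, `θ ∈ ℂ^k`, `L ≥ 2`, `N ≥ L^(d^C)`, after
removing at most `k + 1` integers from `[N, N + L]`, the logarithms of any `m` distinct remaining
integers are not a zero of any nonzero polynomial of total degree `≤ d` whose coefficients are
values at `θ` of rational polynomials of total degree `≤ d`. -/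
theorem result (k m : ℕ) : ∃ C : ℕ, ∀ d : ℕ, 2 ≤ d → ∀ (θ : Fin k → ℂ) (N L : ℕ),
    2 ≤ L → L ^ d ^ C ≤ N → ∃ E : Finset ℕ, E.card ≤ k + 1 ∧ ∀ n : Fin m → ℕ,
      Function.Injective n → (∀ i, N ≤ n i ∧ n i ≤ N + L ∧ n i ∉ E) →
      ∀ G : MvPolynomial (Fin m) ℂ, G ≠ 0 → G.totalDegree ≤ d →
        (∀ α, ∃ P : MvPolynomial (Fin k) ℚ, P.totalDegree ≤ d ∧
          MvPolynomial.aeval θ P = G.coeff α) →
        MvPolynomial.eval (fun i => ((Real.log (n i) : ℝ) : ℂ)) G ≠ 0 :=
  Pool.Agent.MP_d171e3_nt.H48.short_interval k m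

end Pool.Agent.Results.MP_d171e3_nt.Clusters
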