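import Pool.Agent.MP_d171e3_nt.H12.Rank

/-! The Hilbert function of the logarithms of the primes up to `y` is at least `m^k`
as soon as `y` exceeds a power of `log m`. -/

namespace Pool.Agent.Results.MP_d171e3_nt.RankGrowth

/-- There is `C` such that for all `k ≥ 1`, `m` with `log m ≥ C k²` and `y ≥ (log m)^(C k)` the
values at `(log p)_{p ≤ y}` of the rational polynomials of total degree `≤ m` form a `ℚ`-space of
dimension at least `m^k`. -/
theorem result : ∃ C : ℕ, ∀ k y m : ℕ, 1 ≤ k → (C * k ^ 2 : ℝ) ≤ Real.log m →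
    Real.log m ^ (C * k) ≤ y →
    m ^ k ≤ Module.finrank ℚ ((MvPolynomial.restrictTotalDegree {p : ℕ // p.Prime ∧ p ≤ y} ℚ m).map
      (MvPolynomial.aeval fun p : {p : ℕ // p.Prime ∧ p ≤ y} => Real.log (p.1 : ℕ)).toLinearMap) :=
  Pool.Agent.MP_d171e3_nt.H12.rank_growth

end Pool.Agent.Results.MP_d171e3_nt.RankGrowth
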