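import Pool.Agent.MP_d171e3_nt.Mg.H31_Main

/-! Few primes have a logarithm of bounded degree over `r` given complex numbers. -/

namespace Pool.Agent.Results.MP_d171e3_nt.SparseFibres

/-- For `r ≥ 1`, `d` and `ε > 0` there is `C` such that for all `θ ∈ ℂ^r`, `ω ∈ ℂ`, `X ≥ 1`, at
most `C X^(1 - 1/r + ε)` primes `q ≤ X` have `ω + log q` a root of a nonzero polynomial of degree
`≤ d` whose coefficients are values at `θ` of rational polynomials of total degree `≤ d`. -/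
theorem result (r d : ℕ) (hr : 1 ≤ r) (ε : ℝ) (hε : 0 < ε) : ∃ C : ℝ,
    ∀ (θ : Fin r → ℂ) (ω : ℂ) (X : ℕ), 1 ≤ X →
      (({q : ℕ | q.Prime ∧ q ≤ X ∧ ∃ G : Polynomial ℂ, G ≠ 0 ∧ G.natDegree ≤ d ∧
        (∀ j, ∃ P : MvPolynomial (Fin r) ℚ, P.totalDegree ≤ d ∧
          MvPolynomial.aeval θ P = G.coeff j) ∧
        G.eval (ω + ((Real.log q : ℝ) : ℂ)) = 0}.ncard : ℕ) : ℝ) ≤
      C * (X : ℝ) ^ (1 - 1 / (r : ℝ) + ε) :=
  Pool.Agent.MP_d171e3_nt.H31.sparse_fibres r d hr ε hε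

end Pool.Agent.Results.MP_d171e3_nt.SparseFibres
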