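import Pool.Agent.MP_d171e3_nt.H12.Tuples

/-! Few integers have a logarithm of small degree over `r` given numbers, uniformly in the degree. -/

namespace Pool.Agent.Results.MP_d171e3_nt.UniformFibres

/-- For every `r` there is `C` such that for all `d ≥ 1`, `X ≥ 2`, `θ ∈ ℂ^r`, `ω ∈ ℂ`, at most
`C d^C (log X)^3 X^(1 - 1/(2r+4))` integers `1 ≤ q ≤ X` have `ω + log q` a root of a nonzero
polynomial of degree `≤ d` whose coefficients are values at `θ` of rational polynomials of total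
degree `≤ d`. -/
theorem result (r : ℕ) : ∃ C : ℕ, ∀ (d X : ℕ) (θ : Fin r → ℂ) (ω : ℂ), 1 ≤ d → 2 ≤ X →
    (({q : ℕ | 1 ≤ q ∧ q ≤ X ∧ ∃ G : Polynomial ℂ, G ≠ 0 ∧ G.natDegree ≤ d ∧
        (∀ j, ∃ P : MvPolynomial (Fin r) ℚ, P.totalDegree ≤ d ∧
          MvPolynomial.aeval θ P = G.coeff j) ∧
        G.eval (ω + ((Real.log q : ℝ) : ℂ)) = 0}.ncard : ℕ) : ℝ) ≤
      C * (d : ℝ) ^ C * Real.log X ^ 3 * (X : ℝ) ^ (1 - 1 / (2 * (r : ℝ) + 4)) :=
  Pool.Agent.MP_d171e3_nt.H12.uniform_fibres r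

end Pool.Agent.Results.MP_d171e3_nt.UniformFibres
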